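import Pool.Agent.helper55.NM.Spec

/-! PTB (project NM): the bound for a good order -/

set_option autoImplicit false

namespace Pool.Agent.helper97.NM

open Pool.Agent.NM Finset Nat

theorem PTB_mono {q : ℕ} (y : Fin q → ℝ) (hy : ∀ i, 0 < y i) (τ : Equiv.Perm (Fin q)) (j j' : ℕ)
    (h : j < j') (hq : j' ≤ q) : Yp y τ j < Yp y τ j' := by
  unfold Yp
  have hj : j < q := by omega
  refine Finset.sum_lt_sum_of_subset (i := ⟨j, hj⟩) ?_ ?_ ?_ (hy _) ?_
  · intro i hi
    rw [Finset.mem_filter] at hi ⊢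
    exact ⟨hi.1, by omega⟩
  · simp [h]
  · simp
  · intro i _ _
    exact (hy _).le

theorem PTB_le {q : ℕ} (y : Fin q → ℝ) (hy : ∀ i, 0 < y i) (τ : Equiv.Perm (Fin q)) (j j' : ℕ)
    (h : j ≤ j') (hq : j' ≤ q) : Yp y τ j ≤ Yp y τ j' := by
  rcases Nat.lt_or_eq_of_le h with h | h
  · exact (PTB_mono y hy τ j j' h hq).le
  · rw [h]

theorem PTB (hGG2 : GG2_stmt) (hGG3 : GG3_stmt) (hBIN : BIN_stmt) : PTB_stmt := by
  classical
  intro p q k L X y ε τ hX hy hp3 hε hpLk hkq hpn hρ1 hρ2 hkR hgood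
  have hε1 : ε ≤ 1 / 12 := by linarith
  obtain ⟨R, hR⟩ : ∃ R : ℝ, R = 1 - 2 * ε := ⟨_, rfl⟩
  obtain ⟨ρ, hρ⟩ : ∃ ρ : ℝ, ρ = (k : ℝ) / ((p : ℝ) + q) := ⟨_, rfl⟩
  rw [← hρ] at hρ1 hρ2
  rw [← hR] at hkR
  rw [← hR, ← hρ]
  have hR0 : 0 ≤ R := by linarith
  have hR1 : R ≤ 1 := by linarith
  have hρ0 : 0 ≤ ρ := by linarith
  have hρ' : 0 ≤ 1 - ρ := by linarith
  obtain ⟨cnt, hcnt⟩ : ∃ cnt : Finset (Fin p) → ℕ → Prop, ∀ I j, cnt I j ↔
      (j ≤ q ∧ I.card + j ≤ k ∧ Yp y τ j = ∑ i ∈ I, X i) := ⟨_, fun _ _ => Iff.rfl⟩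
  have hex : ∀ I : Finset (Fin p), ∃ j, (∃ j', cnt I j') → cnt I j := by
    intro I
    by_cases h : ∃ j', cnt I j'
    · obtain ⟨j, hj⟩ := h
      exact ⟨j, fun _ => hj⟩
    · exact ⟨0, fun h' => absurd h' h⟩
  choose jj hjj using hex
  obtain ⟨C, hC⟩ : ∃ C : Finset (Finset (Fin p)), C = univ.filter (fun I => I.Nonempty ∧ ∃ j, cnt I j) :=
    ⟨_, rfl⟩
  have hCm : ∀ I, I ∈ C ↔ (I.Nonempty ∧ ∃ j, cnt I j) := by
    intro I
    rw [hC, Finset.mem_filter]
    exact ⟨fun h => h.2, fun h => ⟨Finset.mem_univ _, h⟩⟩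
  have hCj : ∀ I ∈ C, jj I ≤ q ∧ I.card + jj I ≤ k ∧ Yp y τ (jj I) = ∑ i ∈ I, X i := by
    intro I hI
    exact (hcnt I (jj I)).1 (hjj I ((hCm I).1 hI).2)
  have hW : Wt X y k τ ≤ ∑ I ∈ C, q.choose (jj I) := by
    unfold Wt
    rw [hC, Finset.sum_filter, Finset.sum_filter]
    refine Finset.sum_le_sum (fun I _ => ?_)
    by_cases hI : I.Nonempty
    · by_cases hc : ∃ j, cnt I j
      · rw [if_pos hI, if_pos ⟨hI, hc⟩]
        obtain ⟨hj1, hj2, hj3⟩ := (hcnt I (jj I)).1 (hjj I hc)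
        rw [Finset.sum_eq_single (jj I)]
        · split_ifs
          · exact le_rfl
          · exact Nat.zero_le _
        · intro j hj hne
          rw [if_neg]
          rintro ⟨h1, h2⟩
          have hjq : j ≤ q := by
            have := Finset.mem_range.1 hj
            omega
          rcases Nat.lt_or_gt_of_ne hne with hlt | hlt
          · have := PTB_mono y hy τ j (jj I) hlt hj1
            rw [h2, hj3] at this
            exact lt_irrefl _ this
          · have := PTB_mono y hy τ (jj I) j hlt hjq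
            rw [h2, hj3] at this
            exact lt_irrefl _ this
        · intro hnot
          exact absurd (Finset.mem_range.2 (by omega)) hnot
      · rw [if_pos hI, if_neg (fun h => hc h.2)]
        refine le_of_eq (Finset.sum_eq_zero (fun j hj => if_neg ?_))
        rintro ⟨h1, h2⟩
        exact hc ⟨j, (hcnt I j).2 ⟨by have := Finset.mem_range.1 hj; omega, h1, h2⟩⟩
    · rw [if_neg hI, if_neg (fun h => hI h.1)]
  obtain ⟨d, hd⟩ : ∃ d : Finset (Fin p) → ℕ, ∀ I, d I = k - I.card - jj I := ⟨_, fun _ => rfl⟩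
  have hcardle : ∀ I : Finset (Fin p), I.card ≤ p := by
    intro I
    have := Finset.card_le_univ I
    rwa [Fintype.card_fin] at this
  obtain ⟨g, hg⟩ : ∃ g : Finset (Fin p) → ℝ, ∀ I, g I = ρ ^ I.card * (1 - ρ) ^ (p - I.card) :=
    ⟨_, fun _ => rfl⟩
  have hg0 : ∀ I, 0 ≤ g I := by
    intro I
    rw [hg]
    positivity
  have hn : (0 : ℝ) < (p : ℝ) + q := by
    have : (0 : ℝ) < p := by exact_mod_cast (by omega : 0 < p)
    positivity
  have hpn' : (0 : ℝ) ≤ 1 - (p : ℝ) ^ 2 / ((p : ℝ) + q) := by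
    have h1 : (p : ℝ) ^ 2 ≤ (p : ℝ) + q := by exact_mod_cast hpn.le
    have h2 : (p : ℝ) ^ 2 / ((p : ℝ) + q) ≤ 1 := (div_le_one hn).2 h1
    linarith
  have hbin : ∀ I ∈ C, (1 - (p : ℝ) ^ 2 / ((p : ℝ) + q)) * (q.choose (jj I) : ℝ) ≤
      g I * R ^ d I * ((p + q).choose k : ℝ) := by
    intro I hI
    obtain ⟨hj1, hj2, hj3⟩ := hCj I hI
    have h1 := hBIN p q k I.card (d I) R (hcardle I) (by rw [hd]; omega) hkq hpn hR0 hkR
    have h2 : k - I.card - d I = jj I := by rw [hd]; omega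
    rw [h2, ← hρ] at h1
    rw [hg]
    exact h1
  -- the sum over the counted sets
  have hmain : ∑ I ∈ C, g I * R ^ d I ≤ (1 - ε) * (2 * ρ * (1 - ρ)) + R ^ L := by
    rw [← Finset.sum_filter_add_sum_filter_not C (fun I => d I ≤ L)]
    refine add_le_add ?_ ?_
    · -- H
      obtain ⟨H, hH⟩ : ∃ H : Finset (Finset (Fin p)), H = C.filter (fun I => d I ≤ L) := ⟨_, rfl⟩
      rw [← hH]
      have hHC : ∀ I ∈ H, I ∈ C ∧ d I ≤ L := by
        intro I hI
        rw [hH] at hI
        exact Finset.mem_filter.1 hI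
      obtain ⟨S, hS⟩ : ∃ S : Finset (Fin p), S = univ.filter (fun e => ((p : ℝ) + 1) * X e < Yp y τ k) :=
        ⟨_, rfl⟩
      have hSm : ∀ e, e ∈ S ↔ ((p : ℝ) + 1) * X e < Yp y τ k := by
        intro e
        rw [hS, Finset.mem_filter]
        exact ⟨fun h => h.2, fun h => ⟨Finset.mem_univ _, h⟩⟩
      have hp0 : (0 : ℝ) ≤ p := Nat.cast_nonneg p
      have hY0 : 0 ≤ Yp y τ k := by
        unfold Yp
        exact Finset.sum_nonneg (fun i _ => (hy _).le)
      have hgood' : ((p : ℝ) + 1) * (Yp y τ k - Yp y τ (k - (p + L))) < Yp y τ k := by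
        have := not_le.1 hgood
        push_cast at this
        exact this
      have hub : ∀ I ∈ H, ∑ i ∈ I, X i ≤ Yp y τ k := by
        intro I hI
        obtain ⟨hj1, hj2, hj3⟩ := hCj I (hHC I hI).1
        rw [← hj3]
        exact PTB_le y hy τ _ _ (by omega) hkq
      have hlb : ∀ I ∈ H, (p : ℝ) * Yp y τ k < ((p : ℝ) + 1) * ∑ i ∈ I, X i := by
        intro I hI
        obtain ⟨hj1, hj2, hj3⟩ := hCj I (hHC I hI).1
        have hdL := (hHC I hI).2
        rw [hd] at hdL
        have hc := hcardle I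
        have h1 : Yp y τ (k - (p + L)) ≤ Yp y τ (jj I) := PTB_le y hy τ _ _ (by omega) hj1
        rw [← hj3]
        nlinarith
      have hyp : Hyp p S H d := by
        refine ⟨?_, ?_, ?_⟩
        · intro I hI hIS
          have h1 := hlb I hI
          have hne : I.Nonempty := ((hCm I).1 (hHC I hI).1).1
          have h2 : ∑ i ∈ I, ((p : ℝ) + 1) * X i < ∑ _i ∈ I, Yp y τ k :=
            Finset.sum_lt_sum_of_nonempty hne (fun e he => (hSm e).1 (hIS he))
          rw [← Finset.mul_sum, Finset.sum_const, nsmul_eq_mul] at h2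
          have h3 : (I.card : ℝ) ≤ p := by exact_mod_cast hcardle I
          have h4 : (I.card : ℝ) * Yp y τ k ≤ p * Yp y τ k := mul_le_mul_of_nonneg_right h3 hY0
          linarith
        · intro I₁ h1 I₂ h2 hcap hsub
          by_contra hne
          obtain ⟨e, he2, he1⟩ := Finset.exists_of_ssubset (hsub.ssubset_of_ne hne)
          have heS : e ∉ S := by
            intro heS
            have : e ∈ I₂ ∩ S := Finset.mem_inter.2 ⟨he2, heS⟩
            rw [← hcap] at this
            exact he1 (Finset.mem_inter.1 this).1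
          have h3 : Yp y τ k ≤ ((p : ℝ) + 1) * X e := by
            by_contra h
            exact heS ((hSm e).2 (not_le.1 h))
          have h4 : ∑ i ∈ I₁, X i + X e ≤ ∑ i ∈ I₂, X i := by
            have h5 : ∑ i ∈ insert e I₁, X i ≤ ∑ i ∈ I₂, X i :=
              Finset.sum_le_sum_of_subset_of_nonneg (Finset.insert_subset he2 hsub)
                (fun i _ _ => (hX i).le)
            rw [Finset.sum_insert he1] at h5
            linarith
          have h5 := hlb I₁ h1
          have h6 := hub I₂ h2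
          nlinarith
        · intro I₁ h1 I₂ h2 hss
          obtain ⟨a1, a2, a3⟩ := hCj I₁ (hHC I₁ h1).1
          obtain ⟨b1, b2, b3⟩ := hCj I₂ (hHC I₂ h2).1
          have hlt : ∑ i ∈ I₁, X i < ∑ i ∈ I₂, X i := by
            obtain ⟨e, he2, he1⟩ := Finset.exists_of_ssubset hss
            exact Finset.sum_lt_sum_of_subset hss.1 he2 he1 (hX e) (fun i _ _ => (hX i).le)
          have hjlt : jj I₁ < jj I₂ := by
            by_contra h
            have := PTB_le y hy τ (jj I₂) (jj I₁) (not_lt.1 h) a1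
            rw [a3, b3] at this
            linarith
          have hclt := Finset.card_lt_card hss
          rw [hd, hd]
          omega
      have hgoal : ∑ I ∈ H, ρ ^ I.card * (1 - ρ) ^ (p - I.card) * R ^ d I ≤ (1 - ε) * (2 * ρ * (1 - ρ)) := by
        rcases Nat.lt_or_ge (univ \ S).card 3 with h | h
        · exact hGG2 p S H d ε ρ R hyp hε hρ1 hρ2 hR0 hR.le hp3 (by omega)
        · exact hGG3 p S H d ε ρ R hyp hε hρ1 hρ2 hR0 hR.le h
      refine le_trans (le_of_eq (Finset.sum_congr rfl (fun I _ => ?_))) hgoal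
      rw [hg]
    · -- the others
      calc ∑ I ∈ C.filter (fun I => ¬ d I ≤ L), g I * R ^ d I
          ≤ ∑ I ∈ C.filter (fun I => ¬ d I ≤ L), g I * R ^ L := by
            refine Finset.sum_le_sum (fun I hI => ?_)
            have h1 : ¬ d I ≤ L := (Finset.mem_filter.1 hI).2
            exact mul_le_mul_of_nonneg_left (pow_le_pow_of_le_one hR0 hR1 (by omega)) (hg0 I)
        _ ≤ ∑ I : Finset (Fin p), g I * R ^ L := by
            refine Finset.sum_le_sum_of_subset_of_nonneg (Finset.subset_univ _) (fun I _ _ => ?_)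
            exact mul_nonneg (hg0 I) (pow_nonneg hR0 L)
        _ = R ^ L := by
            rw [← Finset.sum_mul]
            have h1 : ∑ I : Finset (Fin p), g I = 1 := by
              have h2 := Fintype.sum_pow_mul_eq_add_pow (Fin p) ρ (1 - ρ)
              rw [Fintype.card_fin] at h2
              have h3 : ρ + (1 - ρ) = 1 := by ring
              rw [h3, one_pow] at h2
              rw [← h2]
              exact Finset.sum_congr rfl (fun I _ => hg I)
            rw [h1, one_mul]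
  calc (1 - (p : ℝ) ^ 2 / ((p : ℝ) + q)) * (Wt X y k τ : ℝ)
      ≤ (1 - (p : ℝ) ^ 2 / ((p : ℝ) + q)) * ∑ I ∈ C, (q.choose (jj I) : ℝ) := by
        refine mul_le_mul_of_nonneg_left ?_ hpn'
        exact_mod_cast hW
    _ = ∑ I ∈ C, (1 - (p : ℝ) ^ 2 / ((p : ℝ) + q)) * (q.choose (jj I) : ℝ) := Finset.mul_sum _ _ _
    _ ≤ ∑ I ∈ C, g I * R ^ d I * ((p + q).choose k : ℝ) := Finset.sum_le_sum hbin
    _ = (∑ I ∈ C, g I * R ^ d I) * ((p + q).choose k : ℝ) := (Finset.sum_mul _ _ _).symm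
    _ ≤ ((1 - ε) * (2 * ρ * (1 - ρ)) + R ^ L) * ((p + q).choose k : ℝ) :=
        mul_le_mul_of_nonneg_right hmain (Nat.cast_nonneg _)

end Pool.Agent.helper97.NM
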